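import Pool.Agent.Helper51.Hart.Defs2
import Mathlib.Analysis.Complex.BranchLogRoot

set_option autoImplicit false
noncomputable section
open Set Metric Complex MeasureTheory
namespace Pool.Helper51.Hart

private lemma half_plane_re (z : ℂ) (c : ℝ) :
    ((starRingEnd ℂ) (Complex.exp z) * Complex.exp (c * I)).re =
      Real.exp z.re * Real.cos (c - z.im) := by
  rw [← Complex.exp_conj, ← Complex.exp_add, Complex.exp_re]
  simp only [add_re, conj_re, mul_re, ofReal_re, I_re, mul_zero, ofReal_im, I_im, mul_one,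
    sub_self, add_zero, add_im, conj_im, mul_im]
  congr 2
  ring

private lemma half_plane_lift {α β : ℝ} (hαβ : α ≤ β) (n : ℝ → ℂ)
    (hn : ContinuousOn n (Icc α β)) (h0 : ∀ s ∈ Icc α β, n s ≠ 0) :
    ∃ F : ℝ → ℂ, Continuous F ∧ ∀ s ∈ Icc α β, Complex.exp (F s) = n s := by
  classical
  have hg : Continuous (IccExtend hαβ (fun x : Icc α β => n x)) := by
    apply Continuous.Icc_extend'
    exact continuousOn_iff_continuous_domRestrict.mp hn
  have hU : IsSimplyConnected (univ : Set ℝ) := by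
    have : ContractibleSpace (univ : Set ℝ) :=
      (convex_univ : Convex ℝ (univ : Set ℝ)).contractibleSpace univ_nonempty
    exact (inferInstance : SimplyConnectedSpace (univ : Set ℝ))
  obtain ⟨F, hF, hE⟩ := Complex.exists_continuousOn_eqOn_exp_comp (X := ℝ) (U := univ) hU
    isOpen_univ (g := IccExtend hαβ (fun x : Icc α β => n x)) hg.continuousOn (by
      rintro ⟨x, -, hx⟩
      simp only [IccExtend, Function.comp_apply] at hx
      exact h0 _ (projIcc α β hαβ x).2 hx)
  refine ⟨F, continuousOn_univ.mp hF, fun s hs => ?_⟩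
  have := hE (mem_univ s)
  simp only [Function.comp_apply] at this
  rw [this, IccExtend_of_mem hαβ _ hs]

/-- HT-09 -/
theorem half_plane {α β : ℝ} (hαβ : α ≤ β) (n : ℝ → ℂ) (hn : ContinuousOn n (Icc α β))
    (h0 : ∀ s ∈ Icc α β, n s ≠ 0) :
    (∃ v : ℂ, ‖v‖ = 1 ∧ ∀ s ∈ Icc α β, 0 < ((starRingEnd ℂ) (n s) * v).re) ∨
    (∃ (r1 r2 : ℝ) (v : ℂ), α ≤ r1 ∧ r1 < r2 ∧ r2 ≤ β ∧ ‖v‖ = 1 ∧
      (∀ s ∈ Ioo r1 r2, 0 < ((starRingEnd ℂ) (n s) * v).re) ∧
      ((starRingEnd ℂ) (n r1) * v).re = 0 ∧ ((starRingEnd ℂ) (n r2) * v).re = 0) := by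
  obtain ⟨F, hF, hE⟩ := half_plane_lift hαβ n hn h0
  set θ : ℝ → ℝ := fun s => (F s).im with hθdef
  have hθ : Continuous θ := Complex.continuous_im.comp hF
  have hre : ∀ s ∈ Icc α β, ∀ c : ℝ, ((starRingEnd ℂ) (n s) * Complex.exp (c * I)).re =
      Real.exp (F s).re * Real.cos (c - θ s) := fun s hs c => by
    rw [← hE s hs, half_plane_re]
  have hnv : ∀ c : ℝ, ‖Complex.exp (c * I)‖ = 1 := fun c => Complex.norm_exp_ofReal_mul_I c
  by_cases hex : ∃ a ∈ Icc α β, ∃ b ∈ Icc α β, a ≤ b ∧ |θ a - θ b| = Real.pi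
  · right
    -- minimal pair
    set K : Set (ℝ × ℝ) := {p | p.1 ∈ Icc α β ∧ p.2 ∈ Icc α β ∧ p.1 ≤ p.2 ∧
      |θ p.1 - θ p.2| = Real.pi} with hK
    have hKc : IsCompact K := by
      have : IsClosed K := by
        have e : K = (Prod.fst ⁻¹' Icc α β) ∩ ((Prod.snd ⁻¹' Icc α β) ∩
          ({p : ℝ × ℝ | p.1 ≤ p.2} ∩ {p : ℝ × ℝ | |θ p.1 - θ p.2| = Real.pi})) := by
          ext p; simp [hK]
        rw [e]
        refine (isClosed_Icc.preimage continuous_fst).inter
          ((isClosed_Icc.preimage continuous_snd).inter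
          ((isClosed_le continuous_fst continuous_snd).inter (isClosed_eq ?_ continuous_const)))
        exact ((hθ.comp continuous_fst).sub (hθ.comp continuous_snd)).abs
      exact (isCompact_Icc.prod isCompact_Icc).of_isClosed_subset this
        (fun p hp => ⟨hp.1, hp.2.1⟩)
    obtain ⟨a, ha, b, hb, hab, hd⟩ := hex
    obtain ⟨⟨r1, r2⟩, ⟨hr1, hr2, hle, hdd⟩, hmin⟩ := hKc.exists_isMinOn ⟨(a, b), ha, hb, hab, hd⟩
      (f := fun p : ℝ × ℝ => p.2 - p.1) (by fun_prop)
    simp only at hr1 hr2 hle hdd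
    have hpi := Real.pi_pos
    have hne : r1 < r2 := by
      rcases hle.lt_or_eq with h | h
      · exact h
      · exfalso; rw [h] at hdd; simp at hdd; linarith
    have hmin' : ∀ x y, r1 ≤ x → x ≤ y → y ≤ r2 → |θ x - θ y| = Real.pi → y - x ≥ r2 - r1 := by
      intro x y hx hxy hy h
      exact hmin (a := (x, y)) ⟨⟨hr1.1.trans hx, hxy.trans (hy.trans hr2.2)⟩,
        ⟨hr1.1.trans (hx.trans hxy), hy.trans hr2.2⟩, hxy, h⟩
    rcases le_total (θ r1) (θ r2) with hup | hup
    · -- θ r2 = θ r1 + π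
      have h12 : θ r2 = θ r1 + Real.pi := by
        rw [abs_sub_comm, abs_of_nonneg (by linarith)] at hdd; linarith
      have hin : ∀ s ∈ Ioo r1 r2, θ r1 < θ s ∧ θ s < θ r1 + Real.pi := by
        intro s hs
        constructor
        · by_contra hc
          push Not at hc
          obtain ⟨x, hx, hxe⟩ := intermediate_value_Icc hs.2.le hθ.continuousOn
            (show θ r1 ∈ Icc (θ s) (θ r2) from ⟨hc, hup⟩)
          have := hmin' x r2 (hs.1.le.trans hx.1) hx.2 le_rfl (by
            rw [hxe, ← hdd])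
          linarith [hs.1, hx.1]
        · by_contra hc
          push Not at hc
          obtain ⟨x, hx, hxe⟩ := intermediate_value_Icc hs.1.le hθ.continuousOn
            (show θ r1 + Real.pi ∈ Icc (θ r1) (θ s) from ⟨by linarith, hc⟩)
          have := hmin' r1 x le_rfl hx.1 (hx.2.trans hs.2.le) (by
            rw [hxe, ← h12, hdd])
          linarith [hs.2, hx.2]
      refine ⟨r1, r2, Complex.exp (((θ r1 + Real.pi / 2 : ℝ) : ℂ) * I), hr1.1, hne, hr2.2, hnv _,
        fun s hs => ?_, ?_, ?_⟩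
      · rw [hre s ⟨hr1.1.trans hs.1.le, hs.2.le.trans hr2.2⟩]
        have := hin s hs
        exact mul_pos (Real.exp_pos _) (Real.cos_pos_of_mem_Ioo ⟨by linarith, by linarith⟩)
      · rw [hre r1 hr1, show θ r1 + Real.pi / 2 - θ r1 = Real.pi / 2 by ring, Real.cos_pi_div_two,
          mul_zero]
      · rw [hre r2 hr2, h12, show θ r1 + Real.pi / 2 - (θ r1 + Real.pi) = -(Real.pi / 2) by ring,
          Real.cos_neg, Real.cos_pi_div_two, mul_zero]
    · have h12 : θ r1 = θ r2 + Real.pi := by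
        rw [abs_of_nonneg (by linarith)] at hdd; linarith
      have hin : ∀ s ∈ Ioo r1 r2, θ r2 < θ s ∧ θ s < θ r2 + Real.pi := by
        intro s hs
        constructor
        · by_contra hc
          push Not at hc
          obtain ⟨x, hx, hxe⟩ := intermediate_value_Icc' hs.1.le hθ.continuousOn
            (show θ r2 ∈ Icc (θ s) (θ r1) from ⟨hc, hup⟩)
          have := hmin' r1 x le_rfl hx.1 (hx.2.trans hs.2.le) (by
            rw [hxe, ← hdd])
          linarith [hs.2, hx.2]
        · by_contra hc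
          push Not at hc
          obtain ⟨x, hx, hxe⟩ := intermediate_value_Icc' hs.2.le hθ.continuousOn
            (show θ r2 + Real.pi ∈ Icc (θ r2) (θ s) from ⟨by linarith, hc⟩)
          have := hmin' x r2 (hs.1.le.trans hx.1) hx.2 le_rfl (by
            rw [hxe, ← h12, hdd])
          linarith [hs.1, hx.1]
      refine ⟨r1, r2, Complex.exp (((θ r2 + Real.pi / 2 : ℝ) : ℂ) * I), hr1.1, hne, hr2.2, hnv _,
        fun s hs => ?_, ?_, ?_⟩
      · rw [hre s ⟨hr1.1.trans hs.1.le, hs.2.le.trans hr2.2⟩]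
        have := hin s hs
        exact mul_pos (Real.exp_pos _) (Real.cos_pos_of_mem_Ioo ⟨by linarith, by linarith⟩)
      · rw [hre r1 hr1, h12, show θ r2 + Real.pi / 2 - (θ r2 + Real.pi) = -(Real.pi / 2) by ring,
          Real.cos_neg, Real.cos_pi_div_two, mul_zero]
      · rw [hre r2 hr2, show θ r2 + Real.pi / 2 - θ r2 = Real.pi / 2 by ring, Real.cos_pi_div_two,
          mul_zero]
  · left
    push Not at hex
    obtain ⟨a, ha, hmax⟩ := isCompact_Icc.exists_isMaxOn ⟨α, left_mem_Icc.mpr hαβ⟩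
      hθ.continuousOn
    obtain ⟨b, hb, hmin⟩ := isCompact_Icc.exists_isMinOn ⟨α, left_mem_Icc.mpr hαβ⟩
      hθ.continuousOn
    have hmax' : ∀ s ∈ Icc α β, θ s ≤ θ a := fun s hs => hmax hs
    have hmin' : ∀ s ∈ Icc α β, θ b ≤ θ s := fun s hs => hmin hs
    have hpi := Real.pi_pos
    have hlt : θ a - θ b < Real.pi := by
      by_contra hc
      push Not at hc
      rcases le_total a b with hab | hab
      · obtain ⟨x, hx, hxe⟩ := intermediate_value_Icc' hab hθ.continuousOn
            (show θ b + Real.pi ∈ Icc (θ b) (θ a) from ⟨by linarith, by linarith⟩)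
        refine hex x ⟨ha.1.trans hx.1, hx.2.trans hb.2⟩ b hb hx.2 ?_
        rw [hxe, abs_of_nonneg (by linarith)]; ring
      · obtain ⟨x, hx, hxe⟩ := intermediate_value_Icc hab hθ.continuousOn
            (show θ b + Real.pi ∈ Icc (θ b) (θ a) from ⟨by linarith, by linarith⟩)
        refine hex b hb x ⟨hb.1.trans hx.1, hx.2.trans ha.2⟩ hx.1 ?_
        rw [hxe, abs_of_nonpos (by linarith)]; ring
    refine ⟨Complex.exp ((((θ a + θ b) / 2 : ℝ) : ℂ) * I), hnv _, fun s hs => ?_⟩
    rw [hre s hs]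
    have h1 := hmax' s hs
    have h2 := hmin' s hs
    exact mul_pos (Real.exp_pos _) (Real.cos_pos_of_mem_Ioo ⟨by linarith, by linarith⟩)

end Pool.Helper51.Hart
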